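import Pool.Agent.Helper38.TH.GoalsA
import Pool.Agent.Helper83.PP.CLAB

/-!
# Project TH (MP_fc6b1e_nt), packet TH-T_FOU: the Fourier expansion of a `V`-weight
-/

set_option autoImplicit false

namespace Pool.Agent.Helper62.TH

open Finset Pool.Agent.Helper17.PP Pool.Agent.Helper17.PP0 Pool.Agent.Helper17.PP2
open Pool.Agent.Helper38.TH

section fourier

variable {p : ℕ} [Fact p.Prime] {B : Type}

lemma map_sum_prod {A ι : Type*} [AddCommMonoid A] (ψ : AddChar A ℂ) (s : Finset ι) (f : ι → A) :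
    ψ (∑ i ∈ s, f i) = ∏ i ∈ s, ψ (f i) := by
  classical
  induction s using Finset.induction_on with
  | empty => simp
  | insert a s ha ih =>
    rw [Finset.sum_insert ha, Finset.prod_insert ha, AddChar.map_add_eq_mul, ih]

open Classical in
/-- orthogonality of the characters of the label functions -/
lemma orth (ψ₁ : AddChar (ZMod p) ℂ) (hψ : ψ₁ ≠ 1) (D : Finset B) (v w : B → ZMod p)
    (hv : v ∈ lab (ZMod p) D) (hw : w ∈ lab (ZMod p) D) :
    ∑ z ∈ lab (ZMod p) D, ψ₁ (∑ q' ∈ D, z q' * (w q' - v q')) =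
      if v = w then (p : ℂ) ^ D.card else 0 := by
  split_ifs with h
  · subst h
    have hc := (Pool.Agent.Helper83.PP.c_lab B (ZMod p) D).1
    simp only [sub_self, mul_zero, Finset.sum_const_zero, AddChar.map_zero_eq_one,
      Finset.sum_const, nsmul_eq_mul, mul_one]
    rw [hc, ZMod.card]
    push_cast
    rfl
  · obtain ⟨q₁, hq₁⟩ : ∃ q₁, v q₁ ≠ w q₁ := by
      by_contra hcon
      push Not at hcon
      exact h (funext hcon)
    have hqD : q₁ ∈ D := by
      by_contra hcon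
      rw [mem_lab] at hv hw
      exact hq₁ (by rw [hv q₁ hcon, hw q₁ hcon])
    obtain ⟨x, hx⟩ : ∃ x, ψ₁ x ≠ 1 := by
      by_contra hcon
      push Not at hcon
      exact hψ (by ext x; simp [hcon x])
    have hu0 : w q₁ - v q₁ ≠ 0 := sub_ne_zero.2 (Ne.symm hq₁)
    refine (Pool.Agent.Helper83.PP.c_lab B (ZMod p) D).2.2.1
      (fun z => ψ₁ (∑ q' ∈ D, z q' * (w q' - v q'))) (ψ₁ x) hx
      (Pi.single q₁ (x / (w q₁ - v q₁))) ?_ ?_
    · rw [mem_lab]
      intro q hq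
      rw [Pi.single_apply, if_neg]
      rintro rfl
      exact hq hqD
    · intro f _
      have h1 : ∑ q' ∈ D, (f + Pi.single q₁ (x / (w q₁ - v q₁)) : B → ZMod p) q' *
          (w q' - v q') = x + ∑ q' ∈ D, f q' * (w q' - v q') := by
        have h2 : ∀ q' ∈ D, (f + Pi.single q₁ (x / (w q₁ - v q₁)) : B → ZMod p) q' *
            (w q' - v q') = (if q' = q₁ then x else 0) + f q' * (w q' - v q') := by
          intro q' _
          rw [Pi.add_apply, Pi.single_apply]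
          split_ifs with h3
          · subst h3
            field_simp
            ring
          · ring
        rw [Finset.sum_congr rfl h2, Finset.sum_add_distrib, Finset.sum_ite_eq' D q₁,
          if_pos hqD]
      change ψ₁ _ = ψ₁ x * ψ₁ _
      rw [h1, AddChar.map_add_eq_mul]

open Classical in
/-- the Fourier coefficients -/
noncomputable def coef (ψ₁ : AddChar (ZMod p) ℂ) (H : Finset B → (B → ZMod p) → ℝ)
    (D : Finset B) (z : B → ZMod p) : ℂ :=
  (1 / (p : ℂ)) ^ D.card * ∑ v ∈ lab (ZMod p) D, (H D v : ℂ) * ψ₁ (-∑ q' ∈ D, z q' * v q')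

lemma coef_norm (ψ₁ : AddChar (ZMod p) ℂ) (H : Finset B → (B → ZMod p) → ℝ)
    (h0 : ∀ D v, 0 ≤ H D v) (h1 : ∀ D v, H D v ≤ 1) (D : Finset B) (z : B → ZMod p) :
    ‖coef ψ₁ H D z‖ ≤ 1 := by
  have hp : (0 : ℝ) < p := by exact_mod_cast (Fact.out : p.Prime).pos
  unfold coef
  rw [norm_mul]
  have h2 : ‖∑ v ∈ lab (ZMod p) D, (H D v : ℂ) * ψ₁ (-∑ q' ∈ D, z q' * v q')‖ ≤
      (p : ℝ) ^ D.card := by
    refine (norm_sum_le _ _).trans ?_
    have h3 : ∀ v ∈ lab (ZMod p) D, ‖(H D v : ℂ) * ψ₁ (-∑ q' ∈ D, z q' * v q')‖ ≤ 1 := by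
      intro v _
      rw [norm_mul, AddChar.norm_apply, mul_one, Complex.norm_real,
        Real.norm_of_nonneg (h0 D v)]
      exact h1 D v
    refine (Finset.sum_le_sum h3).trans ?_
    rw [Finset.sum_const, nsmul_eq_mul, mul_one,
      (Pool.Agent.Helper83.PP.c_lab B (ZMod p) D).1, ZMod.card]
    push_cast
    exact le_rfl
  have h4 : ‖(1 / (p : ℂ)) ^ D.card‖ = (1 / (p : ℝ)) ^ D.card := by
    rw [norm_pow, norm_div, norm_one, Complex.norm_natCast]
  rw [h4]
  calc (1 / (p : ℝ)) ^ D.card * ‖∑ v ∈ lab (ZMod p) D, (H D v : ℂ) *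
        ψ₁ (-∑ q' ∈ D, z q' * v q')‖ ≤ (1 / (p : ℝ)) ^ D.card * (p : ℝ) ^ D.card :=
        mul_le_mul_of_nonneg_left h2 (by positivity)
    _ = 1 := by
      rw [← mul_pow, one_div, inv_mul_cancel₀ hp.ne', one_pow]

lemma coef_congr (ψ₁ : AddChar (ZMod p) ℂ) (H : Finset B → (B → ZMod p) → ℝ)
    (D : Finset B) (z z' : B → ZMod p) (h : ∀ q ∈ D, z q = z' q) :
    coef ψ₁ H D z = coef ψ₁ H D z' := by
  unfold coef
  congr 1
  refine Finset.sum_congr rfl fun v _ => ?_
  congr 3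
  exact Finset.sum_congr rfl fun q hq => by rw [h q hq]

/-- inversion -/
lemma inversion (ψ₁ : AddChar (ZMod p) ℂ) (hψ : ψ₁ ≠ 1) (H : Finset B → (B → ZMod p) → ℝ)
    (D : Finset B) (w : B → ZMod p) (hw : w ∈ lab (ZMod p) D) :
    ∑ z ∈ lab (ZMod p) D, coef ψ₁ H D z * ψ₁ (∑ q' ∈ D, z q' * w q') = (H D w : ℂ) := by
  classical
  have hp : (p : ℂ) ≠ 0 := by exact_mod_cast (Fact.out : p.Prime).ne_zero
  have h1 : ∀ z ∈ lab (ZMod p) D, coef ψ₁ H D z * ψ₁ (∑ q' ∈ D, z q' * w q') =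
      (1 / (p : ℂ)) ^ D.card * ∑ v ∈ lab (ZMod p) D, (H D v : ℂ) *
        ψ₁ (∑ q' ∈ D, z q' * (w q' - v q')) := by
    intro z _
    unfold coef
    rw [mul_assoc, Finset.sum_mul]
    congr 1
    refine Finset.sum_congr rfl fun v _ => ?_
    rw [mul_assoc, ← AddChar.map_add_eq_mul]
    congr 2
    rw [← Finset.sum_neg_distrib, ← Finset.sum_add_distrib]
    exact Finset.sum_congr rfl fun q _ => by ring
  rw [Finset.sum_congr rfl h1, ← Finset.mul_sum, Finset.sum_comm]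
  have h2 : ∀ v ∈ lab (ZMod p) D, ∑ z ∈ lab (ZMod p) D, (H D v : ℂ) *
      ψ₁ (∑ q' ∈ D, z q' * (w q' - v q')) =
      if v = w then (H D v : ℂ) * (p : ℂ) ^ D.card else 0 := by
    intro v hv
    rw [← Finset.mul_sum, orth ψ₁ hψ D v w hv hw]
    split_ifs <;> simp
  rw [Finset.sum_congr rfl h2, Finset.sum_ite_eq' _ w, if_pos hw, mul_comm, mul_assoc, ← mul_pow,
    mul_one_div, div_self hp, one_pow, mul_one]

end fourier

open Classical in
theorem t_fou : T_FOU := by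
  intro p _ B B₀ k U Λ C _ _ _ _ _ _ S ψ₁ hψ V G hG P
  have hp : (p : ℂ) ≠ 0 := by exact_mod_cast (Fact.out : p.Prime).ne_zero
  -- the function on the label functions
  let Q : Finset B → (B → ZMod p) → Finset B → Prop := fun D v b' =>
    b'.filter V = D ∧ ∀ q' ∈ D, ∑ q ∈ b' with ¬ V q, S.kap q' q = v q'
  let H : Finset B → (B → ZMod p) → ℝ := fun D v =>
    if h : ∃ b', Q D v b' then G h.choose else 0
  have H0 : ∀ D v, 0 ≤ H D v := by
    intro D v
    simp only [H]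
    split_ifs
    · exact hG.nonneg _
    · exact le_rfl
  have H1 : ∀ D v, H D v ≤ 1 := by
    intro D v
    simp only [H]
    split_ifs
    · exact hG.le_one _
    · exact zero_le_one
  refine ⟨coef ψ₁ H, coef_norm ψ₁ H H0 H1, fun D z z' h => coef_congr ψ₁ H D z z' h, ?_⟩
  intro b hb
  set D : Finset B := b.filter V with hD
  let w : B → ZMod p := fun q' => if q' ∈ D then ∑ q ∈ b with ¬ V q, S.kap q' q else 0
  have hw : w ∈ lab (ZMod p) D := by
    rw [mem_lab]
    intro q hq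
    simp only [w]
    rw [if_neg hq]
  have hDP : D ⊆ P := (filter_subset _ _).trans hb
  -- the value of `H`
  have hH : H D w = G b := by
    have hex : ∃ b', Q D w b' := by
      refine ⟨b, rfl, fun q' hq' => ?_⟩
      simp only [w]
      rw [if_pos hq']
    simp only [H]
    rw [dif_pos hex]
    obtain ⟨h1, h2⟩ := hex.choose_spec
    refine hG.dep _ _ h1 fun q' hq' => ?_
    rw [h1] at hq'
    rw [h2 q' hq']
    simp only [w]
    rw [if_pos hq']
  rw [← hH, ← inversion ψ₁ hψ H D w hw]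
  -- from `lab D` to `lab P`
  have h5 := (Pool.Agent.Helper83.PP.c_lab B (ZMod p) P).2.2.2.2
    (fun z => coef ψ₁ H D z * ψ₁ (∑ q' ∈ D, z q' * w q'))
    (fun z => coef ψ₁ H D z * ψ₁ (∑ q' ∈ D, z q' * w q')) D hDP (by
      intro f _ g _ hfg
      change coef ψ₁ H D f * ψ₁ (∑ q' ∈ D, f q' * w q') =
        coef ψ₁ H D g * ψ₁ (∑ q' ∈ D, g q' * w q')
      rw [coef_congr ψ₁ H D f g hfg]
      congr 2
      exact Finset.sum_congr rfl fun q hq => by rw [hfg q hq])
  rw [ZMod.card] at h5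
  have h6 : ∑ z ∈ lab (ZMod p) D, coef ψ₁ H D z * ψ₁ (∑ q' ∈ D, z q' * w q') =
      (1 / (p : ℂ)) ^ P.card * ((p : ℂ) ^ D.card *
        ∑ z ∈ lab (ZMod p) P, coef ψ₁ H D z * ψ₁ (∑ q' ∈ D, z q' * w q')) := by
    rw [h5, ← mul_assoc, ← mul_pow, one_div, inv_mul_cancel₀ hp, one_pow, one_mul]
  rw [h6, Finset.mul_sum]
  congr 1
  refine Finset.sum_congr rfl fun z _ => ?_
  rw [mul_assoc]
  congr 2
  rw [map_sum_prod]
  refine Finset.prod_congr rfl fun q' hq' => ?_
  rw [← map_sum_prod, ← Finset.mul_sum]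
  simp only [w]
  rw [if_pos hq']

end Pool.Agent.Helper62.TH
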